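import Mathlib
import Pool.Agent.Lib_MP_70e04f_m.M34

/-!
The SHGH conjecture, with both alternatives and without any assumption on the form of the system,
for all plane linear systems whose self-intersection is large compared with the tenth multiplicity.
-/

namespace Pool.Agent.Results.MP_70e04f_ag.LargeSelfIntersection

/-- The alternative of the SHGH conjecture in degree `d`, exactly as in frozen statement `S00251`:
for general points `p i` the space of curves of degree at most `d` with multiplicity at least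
`mult i` at `p i` has the expected dimension `max 0 χ`, or there is an irreducible curve of degree
`e` with multiplicity exactly `a i` at `p i`, such that `e ^ 2 - ∑ a i ^ 2 = -1`,
`3 e - ∑ a i = 1` and `d e - ∑ a i mult i ≤ -2`. -/
def SHGH {n : ℕ} (d : ℕ) (mult : Fin n → ℕ) : Prop :=
  ∃ g : MvPolynomial (Fin n × Fin 2) ℂ, g ≠ 0 ∧
    ∀ p : Fin n → Fin 2 → ℂ,
      MvPolynomial.eval (fun q : Fin n × Fin 2 => p q.1 q.2) g ≠ 0 →
        ((2 : ℤ) * ((Module.finrank ℂ
            ↥(MvPolynomial.restrictTotalDegree (Fin 2) ℂ d ⊓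
              ⨅ i : Fin n, Submodule.restrictScalars ℂ
                ((RingHom.ker (MvPolynomial.eval (p i)) :
                    Ideal (MvPolynomial (Fin 2) ℂ)) ^ mult i)) : ℕ) : ℤ)
          = max 0 (((d : ℤ) + 1) * ((d : ℤ) + 2) -
              ∑ i, (mult i : ℤ) * ((mult i : ℤ) + 1)))
        ∨ ∃ f : MvPolynomial (Fin 2) ℂ, ∃ e : ℕ, ∃ a : Fin n → ℕ,
            Irreducible f ∧ f.totalDegree = e ∧
            (∀ i, f ∈ (RingHom.ker (MvPolynomial.eval (p i)) :
                      Ideal (MvPolynomial (Fin 2) ℂ)) ^ a i ∧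
                  f ∉ (RingHom.ker (MvPolynomial.eval (p i)) :
                      Ideal (MvPolynomial (Fin 2) ℂ)) ^ (a i + 1)) ∧
            (e : ℤ) ^ 2 - ∑ i, (a i : ℤ) ^ 2 = -1 ∧
            3 * (e : ℤ) - ∑ i, (a i : ℤ) = 1 ∧
            (d : ℤ) * (e : ℤ) - ∑ i, (a i : ℤ) * (mult i : ℤ) ≤ -2

/-- Let `n ≥ 9`, and let all but (at most) nine of the multiplicities `mult i` be at most `m`. If
`d ^ 2 - ∑ mult i ^ 2 ≥ 3100 m ^ 3` then the alternative of the SHGH conjecture holds in degree
`d`, and in all degrees `D ≤ d` if `(d + 1) (d + 2) ≤ ∑ mult i (mult i + 1)`. -/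
theorem result :
    ∀ (n m d D : ℕ) (mult : Fin n → ℕ) (U : Finset (Fin n)),
      9 ≤ n → U.card ≤ 9 → (∀ i, i ∉ U → mult i ≤ m) →
      ∑ i, mult i ^ 2 + 3100 * m ^ 3 ≤ d ^ 2 →
      (D = d ∨ D ≤ d ∧ (d + 1) * (d + 2) ≤ ∑ i, mult i * (mult i + 1)) →
      SHGH D mult :=
  fun _ m d D mult U hn hU hother hsq hD =>
    Pool.MP_70e04f_ag.Cre.shgh_self (m := m) (d := d) (D := D) mult U hn hU hother hsq hD

end Pool.Agent.Results.MP_70e04f_ag.LargeSelfIntersection
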