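import Mathlib
import Pool.Agent.Lib_MP_70e04f_m.M33

/-!
The SHGH conjecture for all plane linear systems in standard form whose degree is large compared
with the tenth multiplicity.
-/

namespace Pool.Agent.Results.MP_70e04f_ag.NinePoint

/-- For general points `p i` of the affine plane the space of curves of degree at most `d` with
multiplicity at least `mult i` at `p i` has the expected dimension `max 0 χ`. -/
def Expected {n : ℕ} (d : ℕ) (mult : Fin n → ℕ) : Prop :=
  ∃ g : MvPolynomial (Fin n × Fin 2) ℂ, g ≠ 0 ∧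
    ∀ p : Fin n → Fin 2 → ℂ,
      MvPolynomial.eval (fun q : Fin n × Fin 2 => p q.1 q.2) g ≠ 0 →
        ((2 : ℤ) * ((Module.finrank ℂ
            ↥(MvPolynomial.restrictTotalDegree (Fin 2) ℂ d ⊓
              ⨅ i : Fin n, Submodule.restrictScalars ℂ
                ((RingHom.ker (MvPolynomial.eval (p i)) :
                    Ideal (MvPolynomial (Fin 2) ℂ)) ^ mult i)) : ℕ) : ℤ)
          = max 0 (((d : ℤ) + 1) * ((d : ℤ) + 2) -
              ∑ i, (mult i : ℤ) * ((mult i : ℤ) + 1)))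

/-- Let `α 0, ..., α 8` be nine indices with decreasing multiplicities `m_1 ≥ ... ≥ m_9`, and let
all other multiplicities be at most `m`, where `1 ≤ m ≤ m_9`. Suppose that the system is in
standard form, that is `m_1 + m_2 + m_3 ≤ d`, and let `κ = 3 d - (m_1 + ... + m_9)`. Suppose that
`m_1 ^ 2 + ... + m_9 ^ 2 + 3100 m ^ 3 ≤ d ^ 2`, or `d ≥ 780 m ^ 2` and `κ d ≥ 9400 m ^ 3`, or
`d ≥ 9400 m ^ 3`. Then the system has the expected dimension in degree `d`, and in all degrees
`D ≤ d` if `(d + 1) (d + 2) ≤ ∑ mult i (mult i + 1)`. -/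
theorem result :
    ∀ (n m d D κ : ℕ) (mult : Fin n → ℕ) (α : Fin 9 → Fin n),
      Function.Injective α → Antitone (fun j => mult (α j)) →
      1 ≤ m → m ≤ mult (α 8) → (∀ i, i ∉ Set.range α → mult i ≤ m) →
      mult (α 0) + mult (α 1) + mult (α 2) ≤ d →
      ∑ j, mult (α j) + κ = 3 * d →
      (∑ j, mult (α j) ^ 2 + 3100 * m ^ 3 ≤ d ^ 2 ∨
        (780 * m ^ 2 ≤ d ∧ 9400 * m ^ 3 ≤ κ * d) ∨ 9400 * m ^ 3 ≤ d) →
      (D = d ∨ D ≤ d ∧ (d + 1) * (d + 2) ≤ ∑ i, mult i * (mult i + 1)) →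
      Expected D mult :=
  fun _ m d D κ mult α hα hanti hm hm9 hother hstd hκ hbig hD =>
    Pool.MP_70e04f_ag.Hal.gen_nine_all m d D κ mult α hα hanti hm hm9 hother hstd hκ hbig hD

end Pool.Agent.Results.MP_70e04f_ag.NinePoint
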