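import Mathlib
import Pool.Agent.Lib_MP_70e04f_m.M40

/-!
The SHGH conjecture for the plane linear systems which are outside of a strip around the light cone.
The width of the strip is at most one seventh of the square of the tenth multiplicity, and it
becomes arbitrarily small, relative to this square, with the number of points or the degree. On
the one side of the strip nothing is assumed on the form of the system.
-/

namespace Pool.Agent.Results.MP_70e04f_ag.SeventhStrip

/-- The alternative of the SHGH conjecture in degree `d`, exactly as in frozen statement `S00251`: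
for general points `p i` the space of curves of degree at most `d` with multiplicity at least
`mult i` at `p i` has the expected dimension `max 0 χ`, or there is an irreducible curve of degree
`e` with multiplicity exactly `a i` at `p i`, such that `e ^ 2 - ∑ a i ^ 2 = -1`,
`3 e - ∑ a i = 1` and `d e - ∑ a i mult i ≤ -2`. -/
def SHGH {n : ℕ} (d : ℕ) (mult : Fin n → ℕ) : Prop :=
  ∃ g : MvPolynomial (Fin n × Fin 2) ℂ, g ≠ 0 ∧
    ∀ p : Fin n → Fin 2 → ℂ,
      MvPolynomial.eval (fun q : Fin n × Fin 2 => p q.1 q.2) g ≠ 0 →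
        ((2 : ℤ) * ((Module.finrank ℂ
            ↥(MvPolynomial.restrictTotalDegree (Fin 2) ℂ d ⊓
              ⨅ i : Fin n, Submodule.restrictScalars ℂ
                ((RingHom.ker (MvPolynomial.eval (p i)) :
                    Ideal (MvPolynomial (Fin 2) ℂ)) ^ mult i)) : ℕ) : ℤ)
          = max 0 (((d : ℤ) + 1) * ((d : ℤ) + 2) -
              ∑ i, (mult i : ℤ) * ((mult i : ℤ) + 1)))
        ∨ ∃ f : MvPolynomial (Fin 2) ℂ, ∃ e : ℕ, ∃ a : Fin n → ℕ,
            Irreducible f ∧ f.totalDegree = e ∧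
            (∀ i, f ∈ (RingHom.ker (MvPolynomial.eval (p i)) :
                      Ideal (MvPolynomial (Fin 2) ℂ)) ^ a i ∧
                  f ∉ (RingHom.ker (MvPolynomial.eval (p i)) :
                      Ideal (MvPolynomial (Fin 2) ℂ)) ^ (a i + 1)) ∧
            (e : ℤ) ^ 2 - ∑ i, (a i : ℤ) ^ 2 = -1 ∧
            3 * (e : ℤ) - ∑ i, (a i : ℤ) = 1 ∧
            (d : ℤ) * (e : ℤ) - ∑ i, (a i : ℤ) * (mult i : ℤ) ≤ -2

/-- For general points `p i` of the affine plane the space of curves of degree at most `d` with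
multiplicity at least `mult i` at `p i` has the expected dimension `max 0 χ`. -/
def Expected {n : ℕ} (d : ℕ) (mult : Fin n → ℕ) : Prop :=
  ∃ g : MvPolynomial (Fin n × Fin 2) ℂ, g ≠ 0 ∧
    ∀ p : Fin n → Fin 2 → ℂ,
      MvPolynomial.eval (fun q : Fin n × Fin 2 => p q.1 q.2) g ≠ 0 →
        ((2 : ℤ) * ((Module.finrank ℂ
            ↥(MvPolynomial.restrictTotalDegree (Fin 2) ℂ d ⊓
              ⨅ i : Fin n, Submodule.restrictScalars ℂ
                ((RingHom.ker (MvPolynomial.eval (p i)) :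
                    Ideal (MvPolynomial (Fin 2) ℂ)) ^ mult i)) : ℕ) : ℤ)
          = max 0 (((d : ℤ) + 1) * ((d : ℤ) + 2) -
              ∑ i, (mult i : ℤ) * ((mult i : ℤ) + 1)))

/-- Let `α 0, ..., α 9` be ten indices with decreasing multiplicities `m_1 ≥ ... ≥ m_10`, let all
other multiplicities be at most `m_10`, and suppose that one of the following holds.
(0) `m_10 ≤ 1`.
(1) `(m_10 + 1) ^ 2 < 7 ((d + 3) ^ 2 - ∑_{mult i ≥ 2} (mult i + 1) ^ 2)`.
(2) The system is in standard form, that is `m_1 + m_2 + m_3 ≤ d`, and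
`N = (d + 3) ^ 2 - ∑_{mult i ≥ 2} (mult i + 1) ^ 2` is positive and, with `X = m_10 + 1` and `S` the sum
of the `(mult i + 1) ^ 2` over the `i ≠ α 0, ..., α 8` with `mult i ≥ 2`, one has `5000 X ^ 4 ≤ N S`
or `15000 X ^ 5 ≤ N ^ 2 (d + 3)`.
(3) The system is in standard form, and `N = ∑ mult i ^ 2 - d ^ 2` is positive and, with `X = m_10` and
`S` the sum of the `mult i ^ 2` over the `i ≠ α 0, ..., α 8`, one has `X ^ 2 ≤ 7 N` or
`5000 X ^ 4 ≤ N S` or `15000 X ^ 5 ≤ N ^ 2 d`.
Then the alternative of the conjecture holds in degree `d`, and in all degrees `D ≤ d` if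
`(d + 1) (d + 2) ≤ ∑ mult i (mult i + 1)`; in standard form the dimension is the expected one. -/
theorem result :
    ∀ (n d D : ℕ) (mult : Fin n → ℕ) (α : Fin 10 → Fin n),
      Function.Injective α → Antitone (fun j => mult (α j)) →
      (∀ i, i ∉ Set.range α → mult i ≤ mult (α 9)) →
      (mult (α 9) ≤ 1 ∨
        7 * ∑ i with 2 ≤ mult i, (mult i + 1) ^ 2 + (mult (α 9) + 1) ^ 2 < 7 * (d + 3) ^ 2 ∨
        mult (α 0) + mult (α 1) + mult (α 2) ≤ d ∧ ∃ N, 0 < N ∧
          ((∑ i with 2 ≤ mult i, (mult i + 1) ^ 2 + N = (d + 3) ^ 2 ∧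
            (5000 * (mult (α 9) + 1) ^ 4 ≤
                N * ∑ i with 2 ≤ mult i ∧ ∀ j : Fin 9, i ≠ α j.castSucc, (mult i + 1) ^ 2 ∨
              15000 * (mult (α 9) + 1) ^ 5 ≤ N ^ 2 * (d + 3))) ∨
          (∑ i, mult i ^ 2 = d ^ 2 + N ∧
            (mult (α 9) ^ 2 ≤ 7 * N ∨
              5000 * mult (α 9) ^ 4 ≤
                N * ∑ i with ∀ j : Fin 9, i ≠ α j.castSucc, mult i ^ 2 ∨
              15000 * mult (α 9) ^ 5 ≤ N ^ 2 * d)))) →
      (D = d ∨ D ≤ d ∧ (d + 1) * (d + 2) ≤ ∑ i, mult i * (mult i + 1)) →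
      SHGH D mult ∧ (mult (α 0) + mult (α 1) + mult (α 2) ≤ d → Expected D mult) :=
  fun n d D mult α hα hanti hother h hD =>
    Pool.MP_70e04f_ag.Cre.seventh n d D mult α hα hanti hother h hD

end Pool.Agent.Results.MP_70e04f_ag.SeventhStrip
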