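import Mathlib
import Pool.Agent.Lib_MP_70e04f_m.M28

/-!
The SHGH conjecture, with both alternatives, for all plane linear systems with three arbitrary
multiplicities and any number of smaller ones, in degrees large compared with the square of the
smaller ones.
-/

namespace Pool.Agent.Results.MP_70e04f_ag.ThreeArbitrary

/-- For general points `p i` of the affine plane the space of curves of degree at most `d` with
multiplicity at least `mult i` at `p i` has the expected dimension `max 0 χ`. -/
def Expected {n : ℕ} (d : ℕ) (mult : Fin n → ℕ) : Prop :=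
  ∃ g : MvPolynomial (Fin n × Fin 2) ℂ, g ≠ 0 ∧
    ∀ p : Fin n → Fin 2 → ℂ,
      MvPolynomial.eval (fun q : Fin n × Fin 2 => p q.1 q.2) g ≠ 0 →
        ((2 : ℤ) * ((Module.finrank ℂ
            ↥(MvPolynomial.restrictTotalDegree (Fin 2) ℂ d ⊓
              ⨅ i : Fin n, Submodule.restrictScalars ℂ
                ((RingHom.ker (MvPolynomial.eval (p i)) :
                    Ideal (MvPolynomial (Fin 2) ℂ)) ^ mult i)) : ℕ) : ℤ)
          = max 0 (((d : ℤ) + 1) * ((d : ℤ) + 2) -
              ∑ i, (mult i : ℤ) * ((mult i : ℤ) + 1)))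

/-- The alternative of the SHGH conjecture in degree `d`, exactly as in frozen statement `S00251`:
for general points `p i` the space of curves of degree at most `d` with multiplicity at least
`mult i` at `p i` has the expected dimension `max 0 χ`, or there is an irreducible curve of degree
`e` with multiplicity exactly `a i` at `p i`, such that `e ^ 2 - ∑ a i ^ 2 = -1`,
`3 e - ∑ a i = 1` and `d e - ∑ a i mult i ≤ -2`. -/
def SHGH {n : ℕ} (d : ℕ) (mult : Fin n → ℕ) : Prop :=
  ∃ g : MvPolynomial (Fin n × Fin 2) ℂ, g ≠ 0 ∧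
    ∀ p : Fin n → Fin 2 → ℂ,
      MvPolynomial.eval (fun q : Fin n × Fin 2 => p q.1 q.2) g ≠ 0 →
        ((2 : ℤ) * ((Module.finrank ℂ
            ↥(MvPolynomial.restrictTotalDegree (Fin 2) ℂ d ⊓
              ⨅ i : Fin n, Submodule.restrictScalars ℂ
                ((RingHom.ker (MvPolynomial.eval (p i)) :
                    Ideal (MvPolynomial (Fin 2) ℂ)) ^ mult i)) : ℕ) : ℤ)
          = max 0 (((d : ℤ) + 1) * ((d : ℤ) + 2) -
              ∑ i, (mult i : ℤ) * ((mult i : ℤ) + 1)))
        ∨ ∃ f : MvPolynomial (Fin 2) ℂ, ∃ e : ℕ, ∃ a : Fin n → ℕ,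
            Irreducible f ∧ f.totalDegree = e ∧
            (∀ i, f ∈ (RingHom.ker (MvPolynomial.eval (p i)) :
                      Ideal (MvPolynomial (Fin 2) ℂ)) ^ a i ∧
                  f ∉ (RingHom.ker (MvPolynomial.eval (p i)) :
                      Ideal (MvPolynomial (Fin 2) ℂ)) ^ (a i + 1)) ∧
            (e : ℤ) ^ 2 - ∑ i, (a i : ℤ) ^ 2 = -1 ∧
            3 * (e : ℤ) - ∑ i, (a i : ℤ) = 1 ∧
            (d : ℤ) * (e : ℤ) - ∑ i, (a i : ℤ) * (mult i : ℤ) ≤ -2

/-- Let `α`, `β`, `γ` be three indices with arbitrary multiplicities `≤ d - 2 m`, the others being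
at most `m`, and let `d ≥ 14 m ^ 2 + 15 m + 3`. Then the alternative of the SHGH conjecture holds in
degree `d`, and in all degrees `D ≤ d` if `(d + 1) (d + 2) ≤ ∑ mult i (mult i + 1)`; the system has
the expected dimension if no two of the three multiplicities have sum greater than `d + 1`. -/
theorem result :
    ∀ (n m d D : ℕ) (mult : Fin n → ℕ) (α β γ : Fin n), α ≠ β → α ≠ γ → β ≠ γ →
      (∀ i, i ≠ α → i ≠ β → i ≠ γ → mult i ≤ m) →
      mult α + 2 * m ≤ d → mult β + 2 * m ≤ d → mult γ + 2 * m ≤ d →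
      14 * m ^ 2 + 15 * m + 3 ≤ d →
      (D = d ∨ D ≤ d ∧ (d + 1) * (d + 2) ≤ ∑ i, mult i * (mult i + 1)) →
      SHGH D mult ∧
        (mult α + mult β ≤ d + 1 → mult α + mult γ ≤ d + 1 → mult β + mult γ ≤ d + 1 →
          Expected D mult) :=
  fun n m d D mult α β γ h1 h2 h3 hmm ha hb hc hd hD =>
    Pool.MP_70e04f_ag.Dich.shgh_three n m d D mult α β γ h1 h2 h3 hmm ha hb hc hd hD

end Pool.Agent.Results.MP_70e04f_ag.ThreeArbitrary
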